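import Mathlib

/-!
# The upper half of the noncommutative Maclaurin-type inequality is false

A numerical value of the symmetrised product of two mutually commuting families is the product
of the two numerical values. Five positive semidefinite matrices with sum at most `5 I` whose
symmetrised product has a numerical value below `-5!` give, by tensoring, families of
`n ≥ 10` matrices for which the upper bound `n! I` fails.
-/

open Matrix Finset Kronecker

namespace Pool.Agent.Results.MP_6eb00f_an.UpperHalfFails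

/-- `S_m(A_1, …, A_n)`: the sum of the products `A_{j_1} ⋯ A_{j_m}` over all ordered `m`-tuples of
distinct indices. -/
noncomputable def S {d n : ℕ} (m : ℕ) (A : Fin n → Matrix (Fin d) (Fin d) ℝ) : Matrix (Fin d) (Fin d) ℝ :=
  ∑ j : Fin m ↪ Fin n, (List.ofFn fun k => A (j k)).prod

/-- Hypothesis (H): the matrices are positive semidefinite and their sum is at most `n I`. -/
def H {d n : ℕ} (A : Fin n → Matrix (Fin d) (Fin d) ℝ) : Prop :=
  (∀ i, (A i).PosSemidef) ∧ ((n : ℝ) • (1 : Matrix (Fin d) (Fin d) ℝ) - ∑ i, A i).PosSemidef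

/-! ### The general recursion -/

/-- Sum over all orderings: `R A (m+1) W = ∑_{i ∈ W} A_i R A m (W \ {i})`. -/
def R {ι : Type*} [DecidableEq ι] {M : Type*} [Semiring M] (A : ι → M) : ℕ → Finset ι → M
  | 0, _ => 1
  | m + 1, W => ∑ i ∈ W, A i * R A m (W.erase i)

lemma sum_inj {ι : Type*} [Fintype ι] [DecidableEq ι] {M : Type*} [Semiring M] (A : ι → M) :
    ∀ (m : ℕ) (W : Finset ι), ∑ f : Fin m → ι, (if Function.Injective f ∧ ∀ k, f k ∈ W then
      (List.ofFn fun k => A (f k)).prod else 0) = R A m W := by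
  classical
  intro m
  induction m with
  | zero =>
    intro W
    rw [R, Fintype.sum_unique]
    rw [if_pos ⟨Function.injective_of_subsingleton _, fun k => k.elim0⟩]
    simp
  | succ m ih =>
    intro W
    rw [R, ← Equiv.sum_comp (Fin.consEquiv (fun _ : Fin (m + 1) => ι)), Fintype.sum_prod_type]
    rw [← Finset.sum_filter_add_sum_filter_not univ (fun i => i ∈ W)]
    have h0 : ∑ i ∈ univ.filter (fun i => ¬ i ∈ W), ∑ g : Fin m → ι,
        (if Function.Injective ((Fin.consEquiv (fun _ : Fin (m + 1) => ι)) (i, g)) ∧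
          ∀ k, (Fin.consEquiv (fun _ : Fin (m + 1) => ι)) (i, g) k ∈ W then
          (List.ofFn fun k => A ((Fin.consEquiv (fun _ : Fin (m + 1) => ι)) (i, g) k)).prod
          else 0) = 0 := by
      refine Finset.sum_eq_zero fun i hi => Finset.sum_eq_zero fun g _ => ?_
      rw [if_neg]
      rintro ⟨-, h⟩
      exact (mem_filter.1 hi).2 (by simpa using h 0)
    rw [h0, add_zero, Finset.filter_mem_eq_inter, Finset.univ_inter]
    refine Finset.sum_congr rfl fun i hi => ?_
    rw [← ih (W.erase i), Finset.mul_sum]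
    refine Finset.sum_congr rfl fun g _ => ?_
    have hiff : (Function.Injective ((Fin.consEquiv (fun _ : Fin (m + 1) => ι)) (i, g)) ∧
        ∀ k, (Fin.consEquiv (fun _ : Fin (m + 1) => ι)) (i, g) k ∈ W) ↔
        (Function.Injective g ∧ ∀ k, g k ∈ W.erase i) := by
      have e : (Fin.consEquiv (fun _ : Fin (m + 1) => ι)) (i, g) = Fin.cons i g := rfl
      rw [e, Fin.cons_injective_iff]
      constructor
      · rintro ⟨⟨h1, h2⟩, h3⟩
        refine ⟨h2, fun k => mem_erase.2 ⟨fun h => h1 ⟨k, h⟩, ?_⟩⟩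
        simpa using h3 k.succ
      · rintro ⟨h1, h2⟩
        refine ⟨⟨?_, h1⟩, ?_⟩
        · rintro ⟨k, hk⟩
          exact (mem_erase.1 (h2 k)).1 hk
        · intro k
          refine Fin.cases ?_ (fun k => ?_) k
          · simpa using hi
          · simpa using (mem_erase.1 (h2 k)).2
    by_cases h : Function.Injective g ∧ ∀ k, g k ∈ W.erase i
    · rw [if_pos (hiff.2 h), if_pos h, List.ofFn_succ, List.prod_cons]
      rfl
    · rw [if_neg (fun h' => h (hiff.1 h')), if_neg h, mul_zero]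

lemma S_eq_R {d n : ℕ} (m : ℕ) (A : Fin n → Matrix (Fin d) (Fin d) ℝ) : S m A = R A m univ := by
  classical
  rw [← sum_inj A m univ, ← Finset.sum_filter]
  unfold S
  have h : ∑ f ∈ univ.filter (fun f : Fin m → Fin n => Function.Injective f ∧ ∀ k, f k ∈ univ),
      (List.ofFn fun k => A (f k)).prod =
      ∑ f : {f : Fin m → Fin n // Function.Injective f}, (List.ofFn fun k => A (f.1 k)).prod := by
    refine Finset.sum_subtype _ (fun f => ?_) _
    simp
  rw [h]
  exact (Equiv.sum_comp (Equiv.subtypeInjectiveEquivEmbedding (Fin m) (Fin n))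
    (fun j : Fin m ↪ Fin n => (List.ofFn fun k => A (j k)).prod)).symm

/-! ### Tensor products -/

section tensor

variable {α β a b : Type*} [DecidableEq α] [DecidableEq β] [Fintype a] [DecidableEq a]
  [Fintype b] [DecidableEq b]

/-- The two commuting families `A_i ⊗ 1` and `1 ⊗ B_j`. -/
noncomputable def comb (A : α → Matrix a a ℝ) (B : β → Matrix b b ℝ) :
    α ⊕ β → Matrix (a × b) (a × b) ℝ :=
  Sum.elim (fun i => A i ⊗ₖ 1) (fun j => 1 ⊗ₖ B j)

lemma erase_inl (W₁ : Finset α) (W₂ : Finset β) (i : α) :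
    (W₁.disjSum W₂).erase (Sum.inl i) = (W₁.erase i).disjSum W₂ := by
  ext x
  rcases x with x | x <;> simp

lemma erase_inr (W₁ : Finset α) (W₂ : Finset β) (j : β) :
    (W₁.disjSum W₂).erase (Sum.inr j) = W₁.disjSum (W₂.erase j) := by
  ext x
  rcases x with x | x <;> simp

lemma kron_sum_left (W : Finset α) (X : α → Matrix a a ℝ) (Y : Matrix b b ℝ) :
    (∑ i ∈ W, X i) ⊗ₖ Y = ∑ i ∈ W, X i ⊗ₖ Y := by
  ext ⟨i, j⟩ ⟨k, l⟩
  simp [Matrix.kroneckerMap_apply, Matrix.sum_apply, Finset.sum_mul]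

lemma kron_sum_right (W : Finset β) (X : Matrix a a ℝ) (Y : β → Matrix b b ℝ) :
    X ⊗ₖ (∑ j ∈ W, Y j) = ∑ j ∈ W, X ⊗ₖ Y j := by
  ext ⟨i, j⟩ ⟨k, l⟩
  simp [Matrix.kroneckerMap_apply, Matrix.sum_apply, Finset.mul_sum]

lemma R_comb (A : α → Matrix a a ℝ) (B : β → Matrix b b ℝ) :
    ∀ (t p q : ℕ), p + q = t → ∀ (W₁ : Finset α) (W₂ : Finset β), W₁.card = p → W₂.card = q →
      R (comb A B) t (W₁.disjSum W₂) = (t.choose p : ℝ) • (R A p W₁ ⊗ₖ R B q W₂) := by
  intro t
  induction t with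
  | zero =>
    intro p q hpq W₁ W₂ _ _
    obtain ⟨rfl, rfl⟩ : p = 0 ∧ q = 0 := by omega
    simp [R]
  | succ t ih =>
    intro p q hpq W₁ W₂ h1 h2
    have hL : ∑ i ∈ W₁, comb A B (Sum.inl i) * R (comb A B) t ((W₁.disjSum W₂).erase (Sum.inl i)) =
        (if p = 0 then 0 else (t.choose (p - 1) : ℝ)) • (R A p W₁ ⊗ₖ R B q W₂) := by
      rcases Nat.eq_zero_or_pos p with hp | hp
      · subst hp
        rw [Finset.card_eq_zero] at h1
        rw [h1]
        simp
      · obtain ⟨p', rfl⟩ : ∃ p', p = p' + 1 := ⟨p - 1, by omega⟩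
        rw [if_neg (by omega), Nat.add_sub_cancel]
        have : ∀ i ∈ W₁, comb A B (Sum.inl i) *
            R (comb A B) t ((W₁.disjSum W₂).erase (Sum.inl i)) =
            (t.choose p' : ℝ) • ((A i * R A p' (W₁.erase i)) ⊗ₖ R B q W₂) := by
          intro i hi
          rw [erase_inl, ih p' q (by omega) (W₁.erase i) W₂
            (by rw [Finset.card_erase_of_mem hi, h1]; rfl) h2, mul_smul_comm]
          congr 1
          show (A i ⊗ₖ 1) * _ = _
          rw [← Matrix.mul_kronecker_mul, Matrix.one_mul]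
        rw [Finset.sum_congr rfl this, ← Finset.smul_sum, ← kron_sum_left]
        rfl
    have hR : ∑ j ∈ W₂, comb A B (Sum.inr j) * R (comb A B) t ((W₁.disjSum W₂).erase (Sum.inr j)) =
        (if q = 0 then 0 else (t.choose p : ℝ)) • (R A p W₁ ⊗ₖ R B q W₂) := by
      rcases Nat.eq_zero_or_pos q with hq | hq
      · subst hq
        rw [Finset.card_eq_zero] at h2
        rw [h2]
        simp
      · obtain ⟨q', rfl⟩ : ∃ q', q = q' + 1 := ⟨q - 1, by omega⟩
        rw [if_neg (by omega)]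
        have : ∀ j ∈ W₂, comb A B (Sum.inr j) *
            R (comb A B) t ((W₁.disjSum W₂).erase (Sum.inr j)) =
            (t.choose p : ℝ) • (R A p W₁ ⊗ₖ (B j * R B q' (W₂.erase j))) := by
          intro j hj
          rw [erase_inr, ih p q' (by omega) W₁ (W₂.erase j) h1
            (by rw [Finset.card_erase_of_mem hj, h2]; rfl), mul_smul_comm]
          congr 1
          show (1 ⊗ₖ B j) * _ = _
          rw [← Matrix.mul_kronecker_mul, Matrix.one_mul]
        rw [Finset.sum_congr rfl this, ← Finset.smul_sum, ← kron_sum_right]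
        rfl
    rw [R, Finset.sum_disjSum, hL, hR, ← add_smul]
    congr 1
    rcases Nat.eq_zero_or_pos p with hp | hp
    · subst hp
      rw [if_pos rfl, if_neg (by omega)]
      simp
    · rw [if_neg (by omega)]
      obtain ⟨p', rfl⟩ : ∃ p', p = p' + 1 := ⟨p - 1, by omega⟩
      rw [Nat.add_sub_cancel, Nat.choose_succ_succ']
      rcases Nat.eq_zero_or_pos q with hq | hq
      · subst hq
        rw [if_pos rfl, Nat.choose_eq_zero_of_lt (show t < p' + 1 by omega)]
        push_cast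
        ring
      · rw [if_neg (by omega)]
        push_cast
        ring

end tensor

lemma R_equiv {ι κ M : Type*} [DecidableEq ι] [DecidableEq κ] [Semiring M] (e : ι ≃ κ)
    (A : κ → M) : ∀ (m : ℕ) (W : Finset ι), R (fun i => A (e i)) m W = R A m (W.map e.toEmbedding) := by
  intro m
  induction m with
  | zero => intro W; rfl
  | succ m ih =>
    intro W
    rw [R, R, Finset.sum_map]
    refine Finset.sum_congr rfl fun i _ => ?_
    rw [ih, Finset.map_erase]
    rfl

lemma R_hom {ι M N F : Type*} [DecidableEq ι] [Semiring M] [Semiring N] [FunLike F M N]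
    [RingHomClass F M N] (φ : F) (A : ι → M) :
    ∀ (m : ℕ) (W : Finset ι), R (fun i => φ (A i)) m W = φ (R A m W) := by
  intro m
  induction m with
  | zero => intro W; simp [R]
  | succ m ih =>
    intro W
    rw [R, R, map_sum]
    refine Finset.sum_congr rfl fun i _ => ?_
    rw [ih, map_mul]

/-- `c` is a normalised numerical value of the symmetrised product of `n` matrices
satisfying (H). -/
def Good (n : ℕ) (c : ℝ) : Prop :=
  ∃ (d : ℕ) (A : Fin n → Matrix (Fin d) (Fin d) ℝ), H A ∧ ∃ x : Fin d → ℝ, 0 < x ⬝ᵥ x ∧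
    x ⬝ᵥ (S n A *ᵥ x) = c * n.factorial * (x ⬝ᵥ x)

/-- tensor product of vectors -/
def tv {a b : Type*} (x : a → ℝ) (y : b → ℝ) : a × b → ℝ := fun p => x p.1 * y p.2

lemma tv_dot {a b : Type*} [Fintype a] [Fintype b] (x x' : a → ℝ) (y y' : b → ℝ) :
    tv x y ⬝ᵥ tv x' y' = (x ⬝ᵥ x') * (y ⬝ᵥ y') := by
  simp only [dotProduct, tv, Fintype.sum_prod_type, Finset.sum_mul_sum]
  refine Finset.sum_congr rfl fun i _ => Finset.sum_congr rfl fun j _ => ?_
  ring

lemma kron_mulVec {a b : Type*} [Fintype a] [Fintype b] (X : Matrix a a ℝ) (Y : Matrix b b ℝ)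
    (x : a → ℝ) (y : b → ℝ) : (X ⊗ₖ Y) *ᵥ tv x y = tv (X *ᵥ x) (Y *ᵥ y) := by
  funext ⟨i, j⟩
  simp only [mulVec, dotProduct, tv, Matrix.kroneckerMap_apply, Fintype.sum_prod_type,
    Finset.sum_mul_sum]
  refine Finset.sum_congr rfl fun k _ => Finset.sum_congr rfl fun l _ => ?_
  ring

lemma good_mul {n m : ℕ} {c c' : ℝ} (h1 : Good n c) (h2 : Good m c') : Good (n + m) (c * c') := by
  classical
  obtain ⟨d, A, ⟨hA, hAs⟩, x, hx, hxS⟩ := h1
  obtain ⟨d', B, ⟨hB, hBs⟩, y, hy, hyS⟩ := h2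
  let e : Fin (d * d') ≃ Fin d × Fin d' := finProdFinEquiv.symm
  let φ := Matrix.reindexAlgEquiv ℝ ℝ e.symm
  let f : Fin (n + m) ≃ Fin n ⊕ Fin m := finSumFinEquiv.symm
  have hφ : ∀ M, φ M = M.submatrix e e := fun M => rfl
  refine ⟨d * d', fun k => φ (comb A B (f k)), ⟨fun k => ?_, ?_⟩, fun k => tv x y (e k), ?_, ?_⟩
  · show (φ (comb A B (f k))).PosSemidef
    rw [hφ]
    refine Matrix.PosSemidef.submatrix ?_ _
    rcases f k with i | j
    · exact (hA i).kronecker Matrix.PosSemidef.one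
    · exact Matrix.PosSemidef.one.kronecker (hB j)
  · have h3 : ∑ k, φ (comb A B (f k)) = φ ((∑ i, A i) ⊗ₖ 1 + 1 ⊗ₖ (∑ j, B j)) := by
      rw [Equiv.sum_comp f (fun s => φ (comb A B s)), Fintype.sum_sum_type, map_add,
        kron_sum_left, kron_sum_right, map_sum, map_sum]
      rfl
    have h4 : ((n + m : ℕ) : ℝ) • (1 : Matrix (Fin (d * d')) (Fin (d * d')) ℝ) -
        ∑ k, φ (comb A B (f k)) =
        φ (((n : ℝ) • (1 : Matrix (Fin d) (Fin d) ℝ) - ∑ i, A i) ⊗ₖ 1 +
          1 ⊗ₖ ((m : ℝ) • (1 : Matrix (Fin d') (Fin d') ℝ) - ∑ j, B j)) := by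
      rw [h3]
      have h5 : ((n + m : ℕ) : ℝ) • (1 : Matrix (Fin (d * d')) (Fin (d * d')) ℝ) =
          φ (((n : ℝ) • (1 : Matrix (Fin d) (Fin d) ℝ)) ⊗ₖ (1 : Matrix (Fin d') (Fin d') ℝ) +
            (1 : Matrix (Fin d) (Fin d) ℝ) ⊗ₖ ((m : ℝ) • (1 : Matrix (Fin d') (Fin d') ℝ))) := by
        rw [Matrix.smul_kronecker, Matrix.kronecker_smul, Matrix.one_kronecker_one, ← add_smul,
          map_smul, map_one]
        push_cast
        rfl
      rw [h5, ← map_sub]
      congr 1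
      ext ⟨i, j⟩ ⟨k, l⟩
      simp only [Matrix.sub_apply, Matrix.add_apply, Matrix.kroneckerMap_apply]
      ring
    rw [h4, hφ]
    refine Matrix.PosSemidef.submatrix ?_ _
    exact (hAs.kronecker Matrix.PosSemidef.one).add (Matrix.PosSemidef.one.kronecker hBs)
  · have : (fun k => tv x y (e k)) ⬝ᵥ (fun k => tv x y (e k)) = (x ⬝ᵥ x) * (y ⬝ᵥ y) := by
      rw [← tv_dot]
      exact Equiv.sum_comp e (fun p => tv x y p * tv x y p)
    rw [this]
    positivity
  · have h6 : S (n + m) (fun k => φ (comb A B (f k))) =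
        φ (((n + m).choose n : ℝ) • (S n A ⊗ₖ S m B)) := by
      rw [S_eq_R, S_eq_R, S_eq_R]
      rw [R_equiv f (fun s => φ (comb A B s))]
      rw [R_hom φ (comb A B)]
      rw [Finset.map_univ_equiv]
      congr 1
      have h7 := R_comb A B (n + m) n m rfl univ univ (by simp) (by simp)
      rw [← h7, Finset.univ_disjSum_univ]
    rw [h6]
    have h8 : (φ (((n + m).choose n : ℝ) • (S n A ⊗ₖ S m B))) *ᵥ (fun k => tv x y (e k)) =
        fun k => (((n + m).choose n : ℝ) • tv (S n A *ᵥ x) (S m B *ᵥ y)) (e k) := by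
      rw [hφ, Matrix.submatrix_mulVec_equiv]
      have : (fun k => tv x y (e k)) ∘ e.symm = tv x y := by
        funext p
        simp
      rw [this, Matrix.smul_mulVec, kron_mulVec]
      rfl
    rw [h8]
    have h9 : (fun k => tv x y (e k)) ⬝ᵥ
        (fun k => (((n + m).choose n : ℝ) • tv (S n A *ᵥ x) (S m B *ᵥ y)) (e k)) =
        ((n + m).choose n : ℝ) * ((x ⬝ᵥ (S n A *ᵥ x)) * (y ⬝ᵥ (S m B *ᵥ y))) := by
      have h12 : tv x y ⬝ᵥ (((n + m).choose n : ℝ) • tv (S n A *ᵥ x) (S m B *ᵥ y)) =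
          ((n + m).choose n : ℝ) * ((x ⬝ᵥ (S n A *ᵥ x)) * (y ⬝ᵥ (S m B *ᵥ y))) := by
        rw [dotProduct_smul, tv_dot, smul_eq_mul]
      rw [← h12]
      exact Equiv.sum_comp e (fun p => tv x y p *
        (((n + m).choose n : ℝ) • tv (S n A *ᵥ x) (S m B *ᵥ y)) p)
    have h10 : (fun k => tv x y (e k)) ⬝ᵥ (fun k => tv x y (e k)) = (x ⬝ᵥ x) * (y ⬝ᵥ y) := by
      rw [← tv_dot]
      exact Equiv.sum_comp e (fun p => tv x y p * tv x y p)
    rw [h9, h10, hxS, hyS]
    have h11 : ((n + m).choose n : ℝ) * n.factorial * m.factorial = (n + m).factorial := by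
      have := Nat.choose_mul_factorial_mul_factorial (Nat.le_add_right n m)
      rw [Nat.add_sub_cancel_left] at this
      exact_mod_cast this
    rw [← h11]
    ring

lemma R_one {ι : Type*} [DecidableEq ι] (d : ℕ) : ∀ (m : ℕ) (W : Finset ι), W.card = m →
    R (fun _ : ι => (1 : Matrix (Fin d) (Fin d) ℝ)) m W = (m.factorial : ℝ) • 1 := by
  intro m
  induction m with
  | zero => intro W _; simp [R]
  | succ m ih =>
    intro W hW
    rw [R]
    have : ∀ i ∈ W, (1 : Matrix (Fin d) (Fin d) ℝ) *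
        R (fun _ : ι => (1 : Matrix (Fin d) (Fin d) ℝ)) m (W.erase i) =
        (m.factorial : ℝ) • 1 := by
      intro i hi
      rw [ih _ (by rw [Finset.card_erase_of_mem hi, hW]; rfl), Matrix.one_mul]
    rw [Finset.sum_congr rfl this, Finset.sum_const, hW, Nat.factorial_succ]
    rw [← Nat.cast_smul_eq_nsmul ℝ, smul_smul]
    push_cast
    rfl

/-- identity matrices -/
lemma good_one (n : ℕ) : Good n 1 := by
  refine ⟨1, fun _ => 1, ⟨fun _ => Matrix.PosSemidef.one, ?_⟩, fun _ => 1, ?_, ?_⟩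
  · have : (n : ℝ) • (1 : Matrix (Fin 1) (Fin 1) ℝ) - ∑ _i : Fin n, 1 = 0 := by
      rw [Finset.sum_const, Finset.card_univ, Fintype.card_fin, Nat.cast_smul_eq_nsmul, sub_self]
    rw [this]
    exact Matrix.PosSemidef.zero
  · simp [dotProduct]
  · rw [S_eq_R, R_one 1 n univ (by simp), Matrix.smul_mulVec, Matrix.one_mulVec, dotProduct_smul]
    simp

/-! ### Five explicit matrices -/

/-- The matrices of the example, times `26/5`. -/
def E : Fin 5 → Matrix (Fin 4) (Fin 4) ℤ :=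
  ![!![6, -1, 1, 1; -1, 2, -3, 2; 1, -3, 9, 0; 1, 2, 0, 5],
    !![6, -4, -1, 1; -4, 5, 2, -3; -1, 2, 1, -1; 1, -3, -1, 6],
    !![9, 3, 0, 0; 3, 2, 3, 0; 0, 3, 9, 0; 0, 0, 0, 9],
    !![1, 2, -1, -1; 2, 9, -4, -3; -1, -4, 2, 2; -1, -3, 2, 3],
    !![3, 0, 1, -1; 0, 8, 2, 4; 1, 2, 5, -1; -1, 4, -1, 3]]

/-- Square roots: `E i = F i * (F i)ᵀ`. -/
def F : Fin 5 → Matrix (Fin 4) (Fin 3) ℤ :=
  ![!![2, -1, -1; -1, 0, -1; 2, 2, 1; 0, 1, -2],
    !![1, -2, 1; 0, 1, -2; 0, 0, -1; -2, -1, 1],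
    !![1, -2, -2; 1, -1, 0; 2, -1, 2; -2, -2, 1],
    !![1, 0, 0; 2, 1, -2; -1, 0, 1; -1, 1, 1],
    !![-1, 1, 1; 0, 2, -2; -2, 0, -1; 1, 1, -1]]

lemma E_eq : ∀ i, E i = F i * (F i)ᵀ := by decide +kernel

lemma E_sum : ∑ i, E i = !![25, 0, 0, 0; 0, 26, 0, 0; 0, 0, 26, 0; 0, 0, 0, 26] := by
  decide +kernel

lemma E_val : R E 5 univ *ᵥ ![0, 3, -1, -1] = ![184629, -1446378, 366541, 428865] := by
  decide +kernel


lemma R_smul {ι : Type*} [DecidableEq ι] {d : ℕ} (t : ℝ) (A : ι → Matrix (Fin d) (Fin d) ℝ) :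
    ∀ (m : ℕ) (W : Finset ι), R (fun i => t • A i) m W = t ^ m • R A m W := by
  intro m
  induction m with
  | zero => intro W; simp [R]
  | succ m ih =>
    intro W
    rw [R, R, Finset.smul_sum]
    refine Finset.sum_congr rfl fun i _ => ?_
    rw [ih, smul_mul_assoc, mul_smul_comm, smul_smul, pow_succ, mul_comm]

/-- the cast of integer matrices -/
noncomputable def cst : Matrix (Fin 4) (Fin 4) ℤ →+* Matrix (Fin 4) (Fin 4) ℝ :=
  (Int.castRingHom ℝ).mapMatrix

/-- The value of the example: `-5134540 / (11 * 120) * (5 / 26) ^ 5`. -/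
noncomputable def c₀ : ℝ := -5134540 / (11 * 120) * (5 / 26) ^ 5

lemma good_five : Good 5 c₀ := by
  refine ⟨4, fun i => (5 / 26 : ℝ) • cst (E i), ⟨fun i => ?_, ?_⟩, ![0, 3, -1, -1], ?_, ?_⟩
  · refine Matrix.PosSemidef.smul ?_ (by norm_num)
    have : cst (E i) = ((F i).map (Int.cast : ℤ → ℝ)) * ((F i).map (Int.cast : ℤ → ℝ))ᴴ := by
      rw [E_eq i]
      ext k l
      simp [cst, Matrix.mul_apply]
    rw [this]
    exact Matrix.posSemidef_self_mul_conjTranspose _
  · have h1 : ∑ i, (5 / 26 : ℝ) • cst (E i) =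
        Matrix.diagonal ![125 / 26, 5, 5, 5] := by
      rw [← Finset.smul_sum, ← map_sum, E_sum]
      ext k l
      fin_cases k <;> fin_cases l <;> simp [cst] <;> norm_num
    have h2 : ((5 : ℕ) : ℝ) • (1 : Matrix (Fin 4) (Fin 4) ℝ) - ∑ i, (5 / 26 : ℝ) • cst (E i) =
        Matrix.diagonal ![5 / 26, 0, 0, 0] := by
      rw [h1]
      ext k l
      fin_cases k <;> fin_cases l <;> simp <;> norm_num
    rw [h2]
    refine Matrix.PosSemidef.diagonal ?_
    intro k
    fin_cases k <;> simp <;> norm_num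
  · simp [dotProduct, Fin.sum_univ_succ]
    norm_num
  · rw [S_eq_R, R_smul, R_hom cst E, Matrix.smul_mulVec]
    have h3 : cst (R E 5 univ) *ᵥ ![0, 3, -1, -1] = ![184629, -1446378, 366541, 428865] := by
      have h4 := congrArg (fun v : Fin 4 → ℤ => fun i => ((v i : ℤ) : ℝ)) E_val
      have h5 : (fun i => (((R E 5 univ *ᵥ ![0, 3, -1, -1]) i : ℤ) : ℝ)) =
          cst (R E 5 univ) *ᵥ ![0, 3, -1, -1] := by
        funext i
        simp only [cst, mulVec, dotProduct, RingHom.mapMatrix_apply, Matrix.map_apply,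
          Int.coe_castRingHom]
        push_cast
        refine Finset.sum_congr rfl fun j _ => ?_
        congr 1
        fin_cases j <;> simp
      rw [← h5]
      refine h4.trans ?_
      funext i
      fin_cases i <;> simp
    rw [h3]
    simp [dotProduct, Fin.sum_univ_succ, Nat.factorial, c₀]
    norm_num

/-- **Negative answer to Q1.** For every `n ≥ 10` the upper inequality fails for `m = n`: there are
real symmetric positive semidefinite matrices `A_1, …, A_n` with `A_1 + ⋯ + A_n ≤ n I` such that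
`n! I - S_n(A_1, …, A_n)` is not positive semidefinite. Moreover the failure is exponential: the
symmetrised product has a numerical value at least `(26/25) ^ ⌊n/10⌋ n!`. -/
theorem result (n : ℕ) (hn : 10 ≤ n) :
    ∃ (d : ℕ) (A : Fin n → Matrix (Fin d) (Fin d) ℝ), H A ∧
      ¬ ((n.factorial : ℝ) • (1 : Matrix (Fin d) (Fin d) ℝ) - S n A).PosSemidef ∧
      ∃ x : Fin d → ℝ, x ⬝ᵥ x = 1 ∧
        (26 / 25 : ℝ) ^ (n / 10) * n.factorial ≤ x ⬝ᵥ (S n A *ᵥ x) := by
  have hk : ∀ k : ℕ, Good (10 * k) ((c₀ * c₀) ^ k) := by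
    intro k
    induction k with
    | zero => simpa using good_one 0
    | succ k ih =>
      have := good_mul ih (good_mul good_five good_five)
      rw [pow_succ]
      exact this
  have hg : Good n ((c₀ * c₀) ^ (n / 10)) := by
    have h1 := good_mul (hk (n / 10)) (good_one (n % 10))
    rw [Nat.div_add_mod, mul_one] at h1
    exact h1
  obtain ⟨d, A, hA, x, hx, hxS⟩ := hg
  have hc : (26 / 25 : ℝ) ≤ c₀ * c₀ := by
    unfold c₀
    norm_num
  have hpow : (26 / 25 : ℝ) ^ (n / 10) ≤ (c₀ * c₀) ^ (n / 10) := pow_le_pow_left₀ (by norm_num) hc _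
  have hfac : (0 : ℝ) < n.factorial := by exact_mod_cast n.factorial_pos
  have h1 : 1 < (26 / 25 : ℝ) ^ (n / 10) := one_lt_pow₀ (by norm_num) (by omega)
  refine ⟨d, A, hA, ?_, (Real.sqrt (x ⬝ᵥ x))⁻¹ • x, ?_, ?_⟩
  · intro h
    have h2 := h.dotProduct_mulVec_nonneg x
    rw [Matrix.sub_mulVec, Matrix.smul_mulVec, Matrix.one_mulVec, dotProduct_sub,
      dotProduct_smul] at h2
    simp only [star_trivial, smul_eq_mul] at h2
    rw [hxS] at h2
    have h3 : 1 < (c₀ * c₀) ^ (n / 10) := lt_of_lt_of_le h1 hpow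
    have h4 : 0 < (n.factorial : ℝ) * (x ⬝ᵥ x) := by positivity
    nlinarith
  · rw [smul_dotProduct, dotProduct_smul, smul_eq_mul, smul_eq_mul, ← mul_assoc, ← mul_inv,
      Real.mul_self_sqrt hx.le, inv_mul_cancel₀ hx.ne']
  · rw [Matrix.mulVec_smul, smul_dotProduct, dotProduct_smul, smul_eq_mul, smul_eq_mul, ← mul_assoc,
      ← mul_inv, Real.mul_self_sqrt hx.le, hxS]
    have : (x ⬝ᵥ x)⁻¹ * ((c₀ * c₀) ^ (n / 10) * n.factorial * (x ⬝ᵥ x)) =
        (c₀ * c₀) ^ (n / 10) * n.factorial := by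
      field_simp
    rw [this]
    gcongr

end Pool.Agent.Results.MP_6eb00f_an.UpperHalfFails
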